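import Mathlib

set_option autoImplicit false

namespace Pool.Agent.Results.MP_140fc6_an.Yes

open Metric

/-- weakly octahedral -/
def WOH (X : Type) [NormedAddCommGroup X] [NormedSpace ℝ X] : Prop :=
  ∀ E : Submodule ℝ X, FiniteDimensional ℝ E → ∀ f : X →L[ℝ] ℝ, ‖f‖ ≤ 1 → ∀ ε : ℝ, 0 < ε →
    ∃ y : X, ‖y‖ = 1 ∧ ∀ x ∈ E, (1 - ε) * (|f x| + ‖y‖) ≤ ‖x + y‖

/-- property (P) -/
def PropP (X : Type) [NormedAddCommGroup X] [NormedSpace ℝ X] : Prop :=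
  ∀ ε : ℝ, 0 < ε → ∀ n : ℕ, 1 ≤ n → ∀ x : Fin n → X, (∀ i, ‖x i‖ = 1) →
    ∀ f : X →L[ℝ] ℝ, ‖f‖ ≤ 1 → ∃ y : X, ‖y‖ = 1 ∧ ∀ i, (1 - ε) * (|f (x i)| + 1) ≤ ‖x i + y‖

variable {X : Type} [NormedAddCommGroup X] [NormedSpace ℝ X]

theorem core (f : X →L[ℝ] ℝ) (hf : ‖f‖ ≤ 1) {z x y : X} {s T κ : ℝ} (hz : ‖z‖ ≤ 1)
    (hx : ‖x‖ ≤ T) (hy : ‖y‖ = 1) (s0 : 0 < s) (s1 : s ≤ 1) (sT : s * T ≤ 1) (k0 : 0 < κ)
    (k1 : κ < 1) (fz : |f (z + s • x)| ≥ 1 - κ + s * |f x|)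
    (h : (1 - κ) * (|f (‖z + s • x‖⁻¹ • (z + s • x))| + 1) ≤ ‖‖z + s • x‖⁻¹ • (z + s • x) + y‖) :
    |f x| + 1 - (s * T + 12 * (κ / s)) ≤ ‖x + y‖ := by
  set w := z + s • x with hw
  obtain ⟨g, g1, g2⟩ := exists_dual_vector'' ℝ (‖w‖⁻¹ • w + y)
  have le : ∀ (φ : X →L[ℝ] ℝ), ‖φ‖ ≤ 1 → ∀ v, |φ v| ≤ ‖v‖ := fun φ hφ v =>
    (φ.le_opNorm v).trans (mul_le_of_le_one_left (norm_nonneg _) hφ)
  have a0 : 0 ≤ s * |f x| := by positivity
  have w1 := le f hf w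
  have w0 : 0 < ‖w‖ := by linarith
  have w2 : ‖w‖ ≤ 1 + s * T := by
    refine (norm_add_le _ _).trans ?_
    rw [norm_smul, Real.norm_of_nonneg s0.le]; gcongr
  simp only [map_add g, map_smul, smul_eq_mul, RCLike.ofReal_real_eq_id, id] at g2
  rw [map_smul, smul_eq_mul, abs_mul, abs_of_pos (inv_pos.2 w0), ← g2] at h
  have h' : (1 - κ) * (|f w| + ‖w‖) ≤ g w + ‖w‖ * g y := by
    have := mul_le_mul_of_nonneg_left h w0.le
    field_simp at this
    linarith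
  have gy := (abs_le.1 (le g g1 y)).2
  have gw := (abs_le.1 (le g g1 w)).2
  have gz := (abs_le.1 (le g g1 z)).2
  have gxy := (abs_le.1 (le g g1 (x + y))).2
  have e : g w = g z + s * g x := by simp [hw]
  rw [map_add] at gxy
  rw [hy] at gy
  have b1 : κ * (|f w| + ‖w‖) ≤ 4 * κ := by nlinarith
  have b2 : s * |f x| - 5 * κ ≤ s * g x := by nlinarith
  have T0 : 0 ≤ s * T := mul_nonneg s0.le ((norm_nonneg _).trans hx)
  have gy' := (abs_le.1 (le g g1 y)).1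
  rw [hy] at gy'
  have c : ‖w‖ * (1 - g y) ≤ s * T + 5 * κ := by nlinarith
  have b3 : 1 - s * T - 7 * κ ≤ g y := by nlinarith
  have b4 : |f x| - 5 * (κ / s) ≤ g x := by
    refine le_of_mul_le_mul_left ?_ s0
    rw [mul_sub, mul_left_comm, mul_div_cancel₀ _ s0.ne']; exact b2
  have b5 : κ ≤ κ / s := le_div_self k0.le s0 s1
  linarith

theorem fin (h : PropP X) (f : X →L[ℝ] ℝ) (hf : ‖f‖ = 1) (S : Finset X) {η : ℝ} (η0 : 0 < η) :
    ∃ y : X, ‖y‖ = 1 ∧ ∀ x ∈ S, |f x| + 1 - η ≤ ‖x + y‖ := by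
  classical
  obtain ⟨T, T1, hT⟩ : ∃ T : ℝ, 1 ≤ T ∧ ∀ x ∈ S, ‖x‖ ≤ T :=
    ⟨1 + ∑ x ∈ S, ‖x‖, le_add_of_nonneg_right (by positivity), fun x hx =>
      le_add_of_nonneg_of_le zero_le_one 
        (Finset.single_le_sum (f := fun x : X => ‖x‖) (fun _ _ => norm_nonneg _) hx)⟩
  wlog η1 : η ≤ 1 generalizing η
  · obtain ⟨y, a, b⟩ := this one_pos le_rfl
    exact ⟨y, a, fun x hx => by linarith [b x hx]⟩
  set s := η / (2 * T) with hs
  have s0 : 0 < s := by positivity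
  have sT : s * T = η / 2 := by rw [hs]; field_simp
  have s1 : s ≤ 1 := by nlinarith
  set κ := s * η / 24 with hκ
  have k0 : 0 < κ := by positivity
  have k1 : κ < 1 := by nlinarith
  obtain ⟨z, z1, z2⟩ := f.exists_lt_apply_of_lt_opNorm (r := 1 - κ) (by linarith)
  rw [Real.norm_eq_abs] at z2
  have hz : ∀ x : X, ∃ v : X, ‖v‖ ≤ 1 ∧ |f (v + s • x)| ≥ 1 - κ + s * |f x| := by
    intro x
    by_cases c : 0 ≤ f z * f x
    · refine ⟨z, z1.le, ?_⟩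
      rw [map_add, map_smul, smul_eq_mul, (abs_add_eq_add_abs_iff _ _).2 (by
        rcases mul_nonneg_iff.1 c with d | d
        · exact Or.inl ⟨d.1, mul_nonneg s0.le d.2⟩
        · exact Or.inr ⟨d.1, mul_nonpos_of_nonneg_of_nonpos s0.le d.2⟩), abs_mul, abs_of_pos s0]
      linarith
    · refine ⟨-z, by rw [norm_neg]; exact z1.le, ?_⟩
      rw [map_add, map_smul, map_neg, smul_eq_mul, (abs_add_eq_add_abs_iff _ _).2 (by
        rcases mul_neg_iff.1 (not_le.1 c) with d | d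
        · exact Or.inr ⟨by linarith [d.1], mul_nonpos_of_nonneg_of_nonpos s0.le d.2.le⟩
        · exact Or.inl ⟨by linarith [d.1], mul_nonneg s0.le d.2.le⟩), abs_mul, abs_of_pos s0,
        abs_neg]
      linarith
  choose v v1 v2 using hz
  set S' := insert (0 : X) S
  let e := S'.equivFin.symm
  obtain ⟨y, y1, y2⟩ := h κ k0 S'.card (Finset.card_pos.2 (Finset.insert_nonempty _ _))
    (fun i => ‖v (e i) + s • (e i : X)‖⁻¹ • (v (e i) + s • (e i : X))) (fun i => by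
      refine norm_smul_inv_norm fun c => ?_
      have := v2 (e i)
      rw [c, map_zero, abs_zero] at this
      have : 0 ≤ s * |f (e i)| := by positivity
      linarith) f hf.le
  refine ⟨y, y1, fun x hx => ?_⟩
  have := y2 (e.symm ⟨x, Finset.mem_insert_of_mem hx⟩)
  simp only [Equiv.apply_symm_apply] at this
  have := core f hf.le (v1 x) (hT x hx) y1 s0 s1 (by linarith) k0 k1 (v2 x) this
  have e2 : κ / s = η / 24 := by rw [hκ]; field_simp
  rw [e2, sT] at this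
  linarith

theorem result : ∀ (X : Type) [NormedAddCommGroup X] [NormedSpace ℝ X] [Nontrivial X],
    WOH X ↔ PropP X := by
  intro X _ _ _
  constructor
  · intro h ε ε0 n _ x _ f hf
    obtain ⟨y, a, b⟩ := h (Submodule.span ℝ (Set.range x))
      (FiniteDimensional.span_of_finite ℝ (Set.finite_range x)) f hf ε ε0
    exact ⟨y, a, fun i => by simpa [a] using b _ (Submodule.subset_span ⟨i, rfl⟩)⟩
  intro h E hE f hf ε ε0
  obtain ⟨F, F1, F2⟩ : ∃ F : X →L[ℝ] ℝ, ‖F‖ = 1 ∧ ∀ x, |f x| ≤ |F x| := by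
    by_cases c : f = 0
    · obtain ⟨x, hx⟩ := exists_ne (0 : X)
      obtain ⟨g, g1, -⟩ := exists_dual_vector ℝ x (norm_ne_zero_iff.2 hx)
      exact ⟨g, g1, fun x => by simp [c]⟩
    · refine ⟨‖f‖⁻¹ • f, norm_smul_inv_norm c, fun x => ?_⟩
      have p := norm_pos_iff.2 c
      rw [smul_apply, smul_eq_mul, abs_mul, abs_of_pos (inv_pos.2 p)]
      exact le_mul_of_one_le_left (abs_nonneg _) ((one_le_inv₀ p).2 hf)
  wlog ε1 : ε ≤ 1 generalizing ε
  · obtain ⟨y, a, b⟩ := this 1 one_pos le_rfl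
    refine ⟨y, a, fun x hx => le_trans ?_ (norm_nonneg _)⟩
    exact mul_nonpos_of_nonpos_of_nonneg (by linarith) (by positivity)
  obtain ⟨t, -, t1, t2⟩ := (isCompact_closedBall (0 : E) (2 / ε)).finite_cover_balls
    (show 0 < ε / 3 by positivity)
  obtain ⟨y, a, b⟩ := fin h F F1 (t1.image (↑)).toFinset (show 0 < ε / 3 by positivity)
  refine ⟨y, a, fun x hx => ?_⟩
  have le : ∀ v, |F v| ≤ ‖v‖ := fun v => by simpa [F1] using F.le_opNorm v
  have := F2 x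
  rw [a]
  rcases le_total ‖x‖ (2 / ε) with c | c
  · obtain ⟨u, u1, u2⟩ := Set.mem_iUnion₂.1 (t2 (show (⟨x, hx⟩ : E) ∈ _ by simpa using c))
    have d := b u (by simpa using u1)
    have u3 : ‖x - u‖ < ε / 3 := by rw [← dist_eq_norm]; exact u2
    have i1 : ‖(u : X) + y‖ ≤ ‖x + y‖ + ‖x - u‖ := by
      rw [show (u : X) + y = x + y - (x - u) by abel]; exact norm_sub_le _ _
    have i2 : |F x| ≤ |F u| + ‖x - u‖ := by
      have := abs_add_le (F u) (F (x - u))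
      rw [← map_add, add_sub_cancel] at this
      linarith [le (x - u)]
    nlinarith [abs_nonneg (f x)]
  · rw [div_le_iff₀ ε0] at c
    have i1 : ‖x‖ ≤ ‖x + y‖ + 1 := by
      rw [← a]; simpa using norm_sub_le (x + y) y
    nlinarith [le x]

end Pool.Agent.Results.MP_140fc6_an.Yes
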